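import Mathlib
import Pool.Agent.MP1bdb59C.Frac

/-!
# The localisation of `A[x]/(f)`
-/

set_option autoImplicit false

open Polynomial IsDedekindDomain

noncomputable section

namespace Pool.Agent.H24D

open Pool.Agent.MP1bdb59C

/-- A localisation of the Dedekind domain `A[x]/(f)`. -/
theorem isDedekind_loc {A A' : Type*} [CommRing A] [IsDomain A] [CommRing A'] [Algebra A A']
    (M : Submonoid A) (hM : M ≤ nonZeroDivisors A) [IsLocalization M A'] {f : A[X]} (hf : f.Monic)
    [IsDedekindDomain (AdjoinRoot f)] :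
    IsDedekindDomain (AdjoinRoot (f.map (algebraMap A A'))) := by
  let i1 : Algebra (AdjoinRoot f) (AdjoinRoot (f.map (algebraMap A A'))) :=
    (lamMap (algebraMap A A') rfl).toAlgebra
  have halg : ∀ x, algebraMap (AdjoinRoot f) (AdjoinRoot (f.map (algebraMap A A'))) x =
      lamMap (algebraMap A A') rfl x := fun _ => rfl
  have hinjA : Function.Injective (algebraMap A A') := IsLocalization.injective A' hM
  have hinj : Function.Injective (algebraMap (AdjoinRoot f)
      (AdjoinRoot (f.map (algebraMap A A')))) := by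
    rw [injective_iff_map_eq_zero]
    intro x hx
    obtain ⟨p, rfl⟩ := AdjoinRoot.mk_surjective x
    rw [halg, lamMap_mk, AdjoinRoot.mk_eq_zero] at hx
    rw [AdjoinRoot.mk_eq_zero]
    exact (Polynomial.map_dvd_map _ hinjA hf).mp hx
  have hof : ∀ s ∈ M, AdjoinRoot.of f s ≠ 0 := by
    intro s hs h0
    have hn : f ≠ 1 := by
      rintro rfl
      have : Subsingleton (AdjoinRoot (1 : A[X])) := by
        rw [← not_nontrivial_iff_subsingleton]
        intro h
        have h1 : (AdjoinRoot.mk (1 : A[X]) 1) = 0 := AdjoinRoot.mk_self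
        rw [map_one] at h1
        exact one_ne_zero h1
      exact not_nontrivial_iff_subsingleton.mpr this inferInstance
    have hinj2 : Function.Injective (AdjoinRoot.of f) := by
      have hd : f.natDegree ≠ 0 := fun h => hn (hf.natDegree_eq_zero.mp h)
      rw [injective_iff_map_eq_zero]
      intro a ha
      by_contra hne
      rw [← AdjoinRoot.mk_C, AdjoinRoot.mk_eq_zero] at ha
      have h3 := Polynomial.natDegree_le_of_dvd ha (C_ne_zero.mpr hne)
      rw [natDegree_C] at h3
      exact hd (Nat.le_zero.mp h3)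
    rw [← map_zero (AdjoinRoot.of f)] at h0
    exact nonZeroDivisors.ne_zero (hM hs) (hinj2 h0)
  have hN : M.map (AdjoinRoot.of f) ≤ nonZeroDivisors (AdjoinRoot f) := by
    rintro _ ⟨s, hs, rfl⟩
    exact mem_nonZeroDivisors_of_ne_zero (hof s hs)
  have hloc : IsLocalization (M.map (AdjoinRoot.of f))
      (AdjoinRoot (f.map (algebraMap A A'))) := by
    refine ⟨?_, ?_, ?_⟩
    · rintro ⟨_, s, hs, rfl⟩
      change IsUnit (lamMap (algebraMap A A') rfl (AdjoinRoot.of f s))
      rw [lamMap_of']
      exact (IsLocalization.map_units A' (⟨s, hs⟩ : M)).map _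
    · intro z
      obtain ⟨q, rfl⟩ := AdjoinRoot.mk_surjective z
      obtain ⟨b, hbm, hb⟩ := IsLocalization.integerNormalization_spec M q
      refine ⟨⟨AdjoinRoot.mk f (IsLocalization.integerNormalization M q),
        ⟨AdjoinRoot.of f b, ⟨b, hbm, rfl⟩⟩⟩, ?_⟩
      change AdjoinRoot.mk _ q * lamMap (algebraMap A A') rfl (AdjoinRoot.of f b) =
        lamMap (algebraMap A A') rfl (AdjoinRoot.mk f _)
      rw [lamMap_of', lamMap_mk, hb, Algebra.smul_def, map_mul, mul_comm]
      rfl
    · intro x y h
      exact ⟨1, by rw [hinj h]⟩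
  have hdom : IsDomain (AdjoinRoot (f.map (algebraMap A A'))) :=
    IsLocalization.isDomain_of_le_nonZeroDivisors _ hN
  exact IsLocalization.isDedekindDomain (AdjoinRoot f) hN _

end Pool.Agent.H24D
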