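import Mathlib
import Pool.Agent.H24D.Loc
import Pool.Agent.MP1bdb59C.LocSel
import Pool.Agent.MP1bdb59C.LocSelA
import Pool.Agent.MP1bdb59C.Crit

/-!
# The valuations of the elements of the Selmer group
-/

set_option autoImplicit false

open Polynomial IsDedekindDomain

noncomputable section

open scoped Classical WithZero

namespace Pool.Agent.H24D

open Pool.Agent.MP1bdb59C
open Pool.Agent.MP1bdb59 (Sep AbsGal emb resGal Place Completion placeOf TateModule)

variable {k K : Type*} [Field k] [Field K] [Algebra k K] {A : Type*} [CommRing A]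
  [IsDedekindDomain A] [Algebra A K] [IsFractionRing A K] {ℓ : ℕ} [hp : Fact ℓ.Prime]
  {f : A[X]} [hirr : Fact (Irreducible (f.map (algebraMap A K)))]
  [IsDedekindDomain (AdjoinRoot f)] [Algebra (AdjoinRoot f) (AdjoinRoot (f.map (algebraMap A K)))]
  [IsFractionRing (AdjoinRoot f) (AdjoinRoot (f.map (algebraMap A K)))]
  [IsScalarTower A (AdjoinRoot f) (AdjoinRoot (f.map (algebraMap A K)))]
  (halg : ∀ x, algebraMap (AdjoinRoot f) (AdjoinRoot (f.map (algebraMap A K))) x =
    lamMap (algebraMap A K) rfl x)
  (hf : f.Monic) (hcop : ¬ ℓ ∣ f.natDegree)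

include halg hf hcop in
/-- The valuations of a class satisfying the local condition at a place of `A`, whose norm is an
`ℓ`-th power. -/
theorem isPow_sel {ζ : A} (hζ : IsPrimitiveRoot (algebraMap A K ζ) ℓ)
    (p : HeightOneSpectrum A) [hgood : Good ℓ (f.map (algebraMap A K))]
    (v : Place k K) (hv : v.ring = (p.valuation K).valuationSubring)
    (m : AdjoinRoot (f.map (algebraMap A K))) (hm : IsUnit m) {r : K}
    (hr : Algebra.norm K m = r ^ ℓ)
    (hloc : ∀ v : Place k K, LocCond hζ (Completion v) m)
    (P : HeightOneSpectrum (AdjoinRoot f)) (hP : P.asIdeal.LiesOver p.asIdeal) :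
    ∃ t : ℤᵐ⁰, P.valuation (AdjoinRoot (f.map (algebraMap A K))) m = t ^ ℓ := by
  have hℓ := hp.out
  have hle := p.asIdeal.primeCompl_le_nonZeroDivisors
  set A' := Localization.subalgebra.ofField K p.asIdeal.primeCompl hle with hA'
  have i1 : IsLocalization.AtPrime A' p.asIdeal :=
    inferInstanceAs (IsLocalization p.asIdeal.primeCompl A')
  have i2 : IsFractionRing A' K := inferInstance
  have i3 : IsScalarTower A A' K := inferInstance
  have i4 : IsDiscreteValuationRing A' :=
    IsLocalization.AtPrime.isDiscreteValuationRing_of_dedekind_domain A p.ne_bot A'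
  obtain ⟨F, hF⟩ : ∃ F, F = f.map (algebraMap A A') := ⟨_, rfl⟩
  have hFm : F.Monic := by rw [hF]; exact hf.map _
  have hFK : F.map (algebraMap A' K) = f.map (algebraMap A K) := by
    rw [hF, Polynomial.map_map, ← IsScalarTower.algebraMap_eq]
  have hFded : IsDedekindDomain (AdjoinRoot F) := by
    rw [hF]
    exact isDedekind_loc p.asIdeal.primeCompl hle hf
  have j1 : Module.Finite A' (AdjoinRoot F) := (AdjoinRoot.powerBasis' hFm).finite
  have j2 : Module.Free A' (AdjoinRoot F) := Module.Free.of_basis (AdjoinRoot.powerBasis' hFm).basis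
  have j3 : Module.IsTorsionFree A' (AdjoinRoot F) := inferInstance
  have hFpid : IsPrincipalIdealRing (AdjoinRoot F) := isPrincipal_of_semilocal (A := A')
  -- the places
  have hplace : ∀ p' : HeightOneSpectrum A', ∃ v : Place k K,
      v.ring = (p'.valuation K).valuationSubring := by
    intro p'
    refine ⟨v, ?_⟩
    rw [hv]
    have h1 : p.asIdeal = p'.asIdeal.comap (algebraMap A A') := by
      have h2 : p'.asIdeal.IsMaximal := p'.isPrime.isMaximal p'.ne_bot
      rw [IsLocalRing.eq_maximalIdeal h2]
      exact (IsLocalization.AtPrime.under_maximalIdeal A' p.asIdeal).symm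
    have h3 : p.valuation K = p'.valuation K := by
      ext x
      exact valuation_eq_of_sameField p' p h1 x
    rw [h3]
  have hζ' : algebraMap A' K (algebraMap A A' ζ) = algebraMap A K ζ := by
    rw [← IsScalarTower.algebraMap_apply]
  -- the class over `A'`
  have hmain : ∀ (gK : K[X]) (hgK : F.map (algebraMap A' K) = gK) [Good ℓ gK]
      (m : AdjoinRoot gK) (hm : IsUnit m)
      {ζK : K} (hζK : IsPrimitiveRoot ζK ℓ) (hζζ : algebraMap A' K (algebraMap A A' ζ) = ζK)
      (hloc : ∀ v : Place k K, LocCond hζK (Completion v) m),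
      ∃ (κ : K) (u : (AdjoinRoot F)ˣ) (z : AdjoinRoot gK), κ ≠ 0 ∧
      m = AdjoinRoot.of _ κ * lamMap (algebraMap A' K) hgK (u : AdjoinRoot F) * z ^ ℓ := by
    intro gK hgK _ m hm ζK hζK hζζ hloc
    subst hgK
    subst hζζ
    exact exists_unit_of_locCond hζK F hFm
      (fun I _ => IsPrincipalIdealRing.principal I) hplace m hm hloc
  obtain ⟨κ, u, z, hκ, h⟩ := hmain _ hFK m hm hζ hζ' hloc
  let l1 : Algebra (AdjoinRoot F) (AdjoinRoot (f.map (algebraMap A K))) :=
    (lamMap (algebraMap A' K) hFK).toAlgebra
  have l2 : IsFractionRing (AdjoinRoot F) (AdjoinRoot (f.map (algebraMap A K))) :=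
    isFractionRing_adjoinRoot hFK hFm hirr.out (fun _ => rfl)
  have l3 : IsScalarTower A' (AdjoinRoot F) (AdjoinRoot (f.map (algebraMap A K))) := by
    apply IsScalarTower.of_algebraMap_eq
    intro a
    change AdjoinRoot.of _ (algebraMap A' K a) = lamMap (algebraMap A' K) hFK (AdjoinRoot.of F a)
    rw [lamMap_of']
  have l4 : Algebra.IsIntegral A' (AdjoinRoot F) := inferInstance
  have hfKm : (f.map (algebraMap A K)).Monic := hf.map _
  have l7 : FiniteDimensional K (AdjoinRoot (f.map (algebraMap A K))) :=
    (AdjoinRoot.powerBasis' hfKm).finite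
  have hrank : Module.finrank K (AdjoinRoot (f.map (algebraMap A K))) = f.natDegree := by
    rw [(AdjoinRoot.powerBasis' hfKm).finrank, AdjoinRoot.powerBasis'_dim, hf.natDegree_map]
  have hQ : ∀ Q : HeightOneSpectrum (AdjoinRoot F), ∃ t : ℤᵐ⁰,
      Q.valuation (AdjoinRoot (f.map (algebraMap A K))) m = t ^ ℓ := fun Q =>
    isPow_of_norm A' hℓ (by rw [hrank]; exact hcop) u hm.ne_zero h hr Q
  -- valuations over `p`
  have m1 : Algebra.IsIntegral A (AdjoinRoot f) := by
    have := (AdjoinRoot.powerBasis' hf).finite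
    infer_instance
  have m2 : Module.Free A (AdjoinRoot f) := Module.Free.of_basis (AdjoinRoot.powerBasis' hf).basis
  have m3 : Module.IsTorsionFree A (AdjoinRoot f) := inferInstance
  exact isPow_of_valuation_le (O := AdjoinRoot F) (L := AdjoinRoot (f.map (algebraMap A K)))
    (O' := AdjoinRoot f) (L' := AdjoinRoot (f.map (algebraMap A K))) P
    (valuation_le_one_adjoinRoot (P.valuation (AdjoinRoot (f.map (algebraMap A K))))
      (lamMap (algebraMap A' K) hFK) (fun a => by
        rw [lamMap_of']
        have h1 := HeightOneSpectrum.valuation_liesOver (AdjoinRoot (f.map (algebraMap A K))) p P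
          (algebraMap A' K a)
        have h2 : AdjoinRoot.of (f.map (algebraMap A K)) (algebraMap A' K a) =
          algebraMap K _ (algebraMap A' K a) := rfl
        rw [h2, ← h1]
        exact pow_le_one' (valuation_le_one_of_atPrime p a) _) (by
        rw [lamMap_root']
        have h1 : AdjoinRoot.root (f.map (algebraMap A K)) = algebraMap (AdjoinRoot f)
              (AdjoinRoot (f.map (algebraMap A K))) (AdjoinRoot.root f) := by
          rw [halg, lamMap_root']
        rw [h1]
        exact P.valuation_le_one _)) ℓ m hm.ne_zero hQ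

end Pool.Agent.H24D
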