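import Mathlib
import Pool.Agent.MP1bdb59P.Core

/-!
# The descent when the Selmer group is generated by the classes of points
-/

set_option autoImplicit false

open Polynomial Finset

noncomputable section

open scoped Classical

set_option linter.unusedSectionVars false

namespace Pool.Agent.H24D

open Pool.Agent.MP1bdb59C
open Pool.Agent.MP1bdb59 (Sep AbsGal emb resGal emb_resGal Place Completion)

universe u v

section

variable {K : Type v} [Field K] {ℓ : ℕ} [hp : Fact ℓ.Prime] {ζ : K} (hζ : IsPrimitiveRoot ζ ℓ)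
  (f : K[X]) [hf : Good ℓ f]

lemma kumData_zero : KumData hζ f 0 1 := by
  refine ⟨0, 1, fun _ => 1, ?_, isUnit_one, fun σ => ?_, fun σ => ?_, ?_⟩
  · rw [map_zero, sub_zero]
  · rw [map_zero, sub_zero]
    exact IsEps.one
  · rw [map_one, mul_one]
  · rw [map_one, one_pow, mul_one]

variable {f} in
lemma kumData_add {P P' : Jac ℓ f K} {μ μ' : AdjoinRoot f} (h : KumData hζ f P μ)
    (h' : KumData hζ f P' μ') : KumData hζ f (P + P') (μ * μ') := by
  obtain ⟨b, ρ, e, h1, h2, h3, h4, h5⟩ := h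
  obtain ⟨b', ρ', e', h1', h2', h3', h4', h5'⟩ := h'
  refine ⟨b + b', ρ * ρ', fun σ => e σ * e' σ, ?_, h2.mul h2', fun σ => ?_, fun σ => ?_, ?_⟩
  · rw [map_add, ← h1, ← h1']
    abel
  · have h6 : act ℓ f K σ (b + b') - (b + b') =
        (act ℓ f K σ b - b) + (act ℓ f K σ b' - b') := by
      rw [map_add]
      abel
    rw [h6]
    exact (h3 σ).mul (h3' σ)
  · rw [map_mul, h4, h4']
    ring
  · rw [map_mul]
    calc _ = (lamMap (algebraMap K (Sep K)) rfl μ * ρ ^ ℓ) *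
          (lamMap (algebraMap K (Sep K)) rfl μ' * ρ' ^ ℓ) := by ring
      _ = 1 := by rw [h5, h5', one_mul]

/-- The monoid generated by the `a - θ`, for the points `(a, b)` with `b ≠ 0` of the curve
`y^ℓ = f(x)`, where `θ` is the class of `x` in `K[x]/(f)`. -/
def ptMon (ℓ : ℕ) {K : Type*} [Field K] (f : K[X]) : Submonoid (AdjoinRoot f) :=
  Submonoid.closure {x | ∃ a b : K, b ≠ 0 ∧ b ^ ℓ = f.eval a ∧
    x = AdjoinRoot.of f a - AdjoinRoot.root f}

lemma exists_kum_of_mem {μ : AdjoinRoot f} (h : μ ∈ ptMon ℓ f) :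
    ∃ P : Jac ℓ f K, KumData hζ f P μ := by
  unfold ptMon at h
  induction h using Submonoid.closure_induction with
  | mem x hx =>
    obtain ⟨a, b, hb, hab, rfl⟩ := hx
    obtain ⟨D, -, -, h3⟩ := exists_kumData hζ f hb hab
    exact ⟨_, h3⟩
  | one => exact ⟨0, kumData_zero hζ f⟩
  | mul x y _ _ hx hy =>
    obtain ⟨P, hP⟩ := hx
    obtain ⟨Q, hQ⟩ := hy
    exact ⟨P + Q, kumData_add hζ hP hQ⟩

lemma norm_of_mem (hm : f.Monic) {μ : AdjoinRoot f} (h : μ ∈ ptMon ℓ f) :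
    ∃ r : K, r ≠ 0 ∧ Algebra.norm K μ = r ^ ℓ := by
  unfold ptMon at h
  induction h using Submonoid.closure_induction with
  | mem x hx =>
    obtain ⟨a, b, hb, hab, rfl⟩ := hx
    refine ⟨b, hb, ?_⟩
    rw [norm_of_sub_root hm, hab]
  | one => exact ⟨1, one_ne_zero, by rw [map_one, one_pow]⟩
  | mul x y _ _ hx hy =>
    obtain ⟨r, hr0, hr⟩ := hx
    obtain ⟨s, hs0, hs⟩ := hy
    exact ⟨r * s, mul_ne_zero hr0 hs0, by rw [map_mul, hr, hs, mul_pow]⟩

end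

section

variable (k : Type u) {K : Type v} [Field k] [Field K] [Algebra k K] {ℓ : ℕ}
    [hp : Fact ℓ.Prime] {ζ : K} (hζ : IsPrimitiveRoot ζ ℓ) (f : K[X]) [hf : Good ℓ f]

/-- The main step. -/
def CoreG : Prop := ∀ c : AbsGal K → Jac ℓ f K, ShaC k f c →
  (∀ σ, tauJ f K hζ (c σ) = c σ) → ∃ t : Jac ℓ f K, ∀ σ, c σ = act ℓ f K σ t - t

theorem coreG (hirr : Irreducible f)
    (hsel : ∀ m : AdjoinRoot f, IsUnit m → (∃ r : K, Algebra.norm K m = r ^ ℓ) →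
      (∀ v : Place k K, LocCond hζ (Completion v) m) → ∃ μ ∈ ptMon ℓ f, ∃ l : AdjoinRoot f,
        m = μ * l ^ ℓ) : CoreG k hζ f := by
  intro c hc hτ
  have hζs := prim_map (Sep K) hζ
  -- the cocycle `eps`
  have hex : ∀ t : Jac ℓ f K, tauJ f K hζ t = t →
      ∃ e, IsEps (prim_map (Sep K) hζ) t.toMul e := fun t ht =>
    exists_isEps (congrArg Additive.toMul ht)
  let E : Jac ℓ f K → AdjoinRoot (f.map (algebraMap K (Sep K))) := fun t =>
    if h : tauJ f K hζ t = t then (hex t h).choose else 1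
  have hE : ∀ t, tauJ f K hζ t = t → IsEps (prim_map (Sep K) hζ) t.toMul (E t) := by
    intro t ht
    have h1 : E t = (hex t ht).choose := dif_pos ht
    rw [h1]
    exact (hex t ht).choose_spec
  let eps : AbsGal K → AdjoinRoot (f.map (algebraMap K (Sep K))) := fun σ => E (c σ)
  have heps : ∀ σ, IsEps (prim_map (Sep K) hζ) (c σ).toMul (eps σ) := fun σ => hE _ (hτ σ)
  have hlc : IsLocallyConstant eps := hc.1.1.comp E
  have hcoc : ∀ σ ρ, eps (σ * ρ) = eps σ * aL (g := f) rfl σ (eps ρ) := by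
    intro σ ρ
    have h1 := (heps σ).mul ((heps ρ).gal (g := f) rfl (prim_map (Sep K) hζ) rfl σ)
    have h2 := congrArg Additive.toMul (hc.1.2 σ ρ)
    rw [toMul_add, act_eq'] at h2
    rw [← h2] at h1
    exact (heps (σ * ρ)).unique h1
  obtain ⟨ρ, m, hρ, hmu, hρ1, hm⟩ := hilbert90_lam (g := f) rfl hirr eps hlc hcoc
    (fun σ => (heps σ).pow)
  have hN : ∀ σ, Algebra.norm (Sep K) (eps σ) = 1 := fun σ => (heps σ).norm
  obtain ⟨μ, hμ, y, hy⟩ := hsel m hmu (exists_norm_pow (g := f) rfl hρ1 hN hm) (fun v => by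
    obtain ⟨R, hR⟩ := hc.2 v
    exact locCond_of_local (Completion v) hζ c eps heps ρ hρ hρ1 m hm R hR)
  obtain ⟨P, b, ρP, eP, hb, hρP, heP, hρP1, hρP2⟩ := exists_kum_of_mem hζ f hμ
  -- the modified cocycle
  have hρ2 : ∀ σ, aL (g := f) rfl σ (ρ * ρP) = (eps σ * eP σ) * (ρ * ρP) := by
    intro σ
    rw [map_mul, hρ1, hρP1]
    ring
  have hyu : IsUnit (y ^ ℓ) := by
    rw [hy] at hmu
    exact isUnit_of_mul_isUnit_right hmu
  obtain ⟨η, h1, h2, h3⟩ := exists_eta (g := f) rfl (prim_map (Sep K) hζ) rfl hρ2 hyu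
    (m := y ^ ℓ) (by
      rw [mul_pow, ← hm, hy, map_mul, map_pow]
      linear_combination (-lamMap (algebraMap K (Sep K)) (rfl : f.map (algebraMap K (Sep K)) = _) y ^ ℓ) * hρP2)
    rfl
  have heps' : ∀ σ, IsEps (prim_map (Sep K) hζ) (c σ + (act ℓ f K σ b - b)).toMul
      (eps σ * eP σ) := fun σ => (heps σ).mul (heP σ)
  obtain ⟨t, ht, ht'⟩ := exists_bdry (g := f) rfl (prim_map (Sep K) hζ) rfl heps' h1 h2 h3
  have ht1 : ∀ σ, c σ + (act ℓ f K σ b - b) =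
      act ℓ f K σ (Additive.ofMul t) - Additive.ofMul t := by
    intro σ
    apply Additive.toMul.injective
    rw [ht' σ, toMul_sub, act_eq', div_eq_mul_inv]
    rfl
  refine ⟨Additive.ofMul t - b, fun σ => ?_⟩
  have h5 : c σ = act ℓ f K σ (Additive.ofMul t) - Additive.ofMul t - (act ℓ f K σ b - b) := by
    rw [← ht1 σ]
    abel
  rw [map_sub, h5]
  abel

variable {k f} {hζ}

lemma CoreG.step (H : CoreG k hζ f) {c : AbsGal K → Jac ℓ f K} (hc : ShaC k f c)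
    (h : ∃ Q : Jac ℓ f K, ∀ σ, c σ - tauJ f K hζ (c σ) = act ℓ f K σ Q - Q) :
    ∃ Q : Jac ℓ f K, ∀ σ, c σ = act ℓ f K σ Q - Q := by
  obtain ⟨Q, hQ⟩ := h
  obtain ⟨b, hb⟩ := exists_phi f K hζ Q
  obtain ⟨t, ht⟩ := H (fun σ => c σ - (act ℓ f K σ b - b)) (hc.sub (ShaC.bdry b))
    (fun σ => by
      have h1 := hQ σ
      rw [← hb, map_sub, act_tauJ] at h1
      rw [map_sub, map_sub]
      have h2 : tauJ f K hζ (c σ) = c σ - (act ℓ f K σ b - tauJ f K hζ (act ℓ f K σ b) -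
        (b - tauJ f K hζ b)) := by rw [← h1]; abel
      rw [h2]
      abel)
  refine ⟨t + b, fun σ => ?_⟩
  have h1 := ht σ
  rw [map_add, sub_eq_iff_eq_add.mp h1]
  abel

lemma CoreG.steps (H : CoreG k hζ f) (n : ℕ) :
    ∀ {c : AbsGal K → Jac ℓ f K}, ShaC k f c →
    (∃ Q : Jac ℓ f K, ∀ σ, ((1 - tauJ f K hζ) ^ n : AddMonoid.End (Jac ℓ f K)) (c σ) =
      act ℓ f K σ Q - Q) → ∃ Q : Jac ℓ f K, ∀ σ, c σ = act ℓ f K σ Q - Q := by
  induction n with
  | zero => intro c _ h; exact h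
  | succ n ih =>
    intro c hc h
    apply H.step hc
    apply ih (hc.sub (hc.tau hζ))
    obtain ⟨Q, hQ⟩ := h
    exact ⟨Q, fun σ => by rw [← hQ, end_pow_succ_apply]⟩

lemma CoreG.torsion (H : CoreG k hζ f) {c : AbsGal K → Jac ℓ f K} (hc : ShaC k f c)
    (h : ∃ Q : Jac ℓ f K, ∀ σ, ℓ • c σ = act ℓ f K σ Q - Q) :
    ∃ Q : Jac ℓ f K, ∀ σ, c σ = act ℓ f K σ Q - Q := by
  obtain ⟨B, hB, hB'⟩ := exists_phi_pow_eq (tauJ f K hζ) (sum_tauJ f K hζ)
  have hBact : ∀ σ t, act ℓ f K σ (B t) = B (act ℓ f K σ t) := fun σ t =>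
    DFunLike.congr_fun (hB' (show AddMonoid.End (Jac ℓ f K) from act ℓ f K σ)
      (DFunLike.ext _ _ fun t => act_tauJ f K hζ σ t)) t
  apply H.steps (ℓ - 1) hc
  obtain ⟨Q, hQ⟩ := h
  exact ⟨B Q, fun σ => by rw [hBact, ← map_sub, ← hQ, hB, end_natCast_mul_apply']⟩

theorem CoreG.sha (H : CoreG k hζ f) : ∀ ξ ∈ Sha k ℓ f, ℓ • ξ = 0 → ξ = 0 := by
  rintro ξ ⟨⟨c, hc, rfl⟩, hloc⟩ hℓ
  rw [cls_eq_zero_iff]
  have hS : ShaC k f c := by
    refine ⟨hc, fun v => ?_⟩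
    have h1 : cls ℓ f K c ∈ (res ℓ f (Completion v)).ker := AddSubgroup.mem_iInf.mp hloc v
    rwa [AddMonoidHom.mem_ker, res_cls, cls_eq_zero_iff] at h1
  apply H.torsion hS
  have h2 : cls ℓ f K (ℓ • c) = 0 := by
    rw [← hℓ]
    rfl
  rw [cls_eq_zero_iff] at h2
  exact h2

end

end Pool.Agent.H24D
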