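import Mathlib
import Pool.Agent.H24D.Away
import Pool.Agent.H24D.Kum
import Pool.Agent.MP1bdb59P.RDesc
import Pool.Agent.MP1bdb59C.Spec

/-!
# The criterion over a Dedekind domain, with points
-/

set_option autoImplicit false

open Polynomial IsDedekindDomain

noncomputable section

open scoped Classical WithZero

namespace Pool.Agent.H24D

open Pool.Agent.MP1bdb59C
open Pool.Agent.MP1bdb59 (Sep AbsGal emb resGal Place Completion placeOf TateModule)

universe u v w

/-- The elements of `A[x]/(f)` which generate the `ℓ`-th power of an ideal and have a norm which is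
an `ℓ`-th power are products of elements of `S` and `ℓ`-th powers. -/
def Gen (ℓ : ℕ) {A : Type*} (K : Type*) [CommRing A] [Field K] [Algebra A K] (f : A[X])
    (S : Set (AdjoinRoot (f.map (algebraMap A K)))) : Prop :=
  ∀ q : A[X], AdjoinRoot.mk f q ≠ 0 →
    (∃ I : Ideal (AdjoinRoot f), Ideal.span {AdjoinRoot.mk f q} = I ^ ℓ) →
    (∃ r : A, Algebra.norm A (AdjoinRoot.mk f q) = r ^ ℓ) →
    ∃ μ ∈ S, ∃ z : AdjoinRoot (f.map (algebraMap A K)),
      AdjoinRoot.mk (f.map (algebraMap A K)) (q.map (algebraMap A K)) = μ * z ^ ℓ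

variable (k : Type*) {A : Type*} {K : Type*} [Field k] [CommRing A] [IsDedekindDomain A]
  [Algebra k A] [Field K] [Algebra A K] [IsFractionRing A K]
  [Algebra k K] [IsScalarTower k A K] {ℓ : ℕ} [hp : Fact ℓ.Prime]

theorem sel_mem {ζ : A} (hζ : IsPrimitiveRoot (algebraMap A K ζ) ℓ) (f : A[X]) (hf : f.Monic)
    (hcop : ¬ ℓ ∣ f.natDegree) [Good ℓ (f.map (algebraMap A K))]
    [IsDedekindDomain (AdjoinRoot f)] (S : Set (AdjoinRoot (f.map (algebraMap A K))))
    (H : Gen ℓ K f S) (m : AdjoinRoot (f.map (algebraMap A K))) (hm : IsUnit m)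
    (hr : ∃ r : K, Algebra.norm K m = r ^ ℓ)
    (hloc : ∀ v : Place k K, LocCond hζ (Completion v) m) : ∃ μ ∈ S, ∃ l, m = μ * l ^ ℓ := by
  have hℓ := hp.out
  have hirr : Irreducible (f.map (algebraMap A K)) := irreducible_of_isDomain hf
  have := Fact.mk hirr
  let i1 : Algebra (AdjoinRoot f) (AdjoinRoot (f.map (algebraMap A K))) :=
    (lamMap (algebraMap A K) rfl).toAlgebra
  have i2 : IsFractionRing (AdjoinRoot f) (AdjoinRoot (f.map (algebraMap A K))) :=
    isFractionRing_adjoinRoot rfl hf hirr (fun _ => rfl)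
  have i3 : IsScalarTower A (AdjoinRoot f) (AdjoinRoot (f.map (algebraMap A K))) := by
    apply IsScalarTower.of_algebraMap_eq
    intro a
    change AdjoinRoot.of _ (algebraMap A K a) = lamMap (algebraMap A K) rfl (AdjoinRoot.of f a)
    rw [lamMap_of']
  have i4 : Algebra.IsIntegral A (AdjoinRoot f) := by
    have := (AdjoinRoot.powerBasis' hf).finite
    infer_instance
  have i5 : Module.Free A (AdjoinRoot f) := Module.Free.of_basis (AdjoinRoot.powerBasis' hf).basis
  have i6 : Module.IsTorsionFree A (AdjoinRoot f) := inferInstance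
  obtain ⟨r, hr⟩ := hr
  have hval : ∀ P : HeightOneSpectrum (AdjoinRoot f), ∃ t : ℤᵐ⁰,
      P.valuation (AdjoinRoot (f.map (algebraMap A K))) m = t ^ ℓ := by
    intro P
    exact isPow_sel (k := k) (fun _ => rfl) hf hcop hζ (HeightOneSpectrum.under A P)
      (placeOf k K (HeightOneSpectrum.under A P)) rfl m hm hr hloc P ⟨rfl⟩
  obtain ⟨x, y, hy, hxy⟩ := IsFractionRing.div_surjective (A := AdjoinRoot f) m
  have hy0 : y ≠ 0 := nonZeroDivisors.ne_zero hy
  have hιy : algebraMap (AdjoinRoot f) (AdjoinRoot (f.map (algebraMap A K))) y ≠ 0 := by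
    rwa [Ne, IsFractionRing.to_map_eq_zero_iff]
  obtain ⟨w, hw⟩ : ∃ w, w = x * y ^ (ℓ - 1) := ⟨_, rfl⟩
  have hιw : algebraMap (AdjoinRoot f) (AdjoinRoot (f.map (algebraMap A K))) w =
      m * algebraMap (AdjoinRoot f) (AdjoinRoot (f.map (algebraMap A K))) y ^ ℓ := by
    rw [hw, map_mul, map_pow, ← hxy]
    obtain ⟨e, he⟩ : ∃ e, ℓ = e + 1 := ⟨ℓ - 1, by have := hℓ.one_lt; omega⟩
    rw [he, Nat.add_sub_cancel, pow_succ]
    field_simp
  have hw0 : w ≠ 0 := by
    rintro h0
    rw [h0, map_zero] at hιw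
    exact mul_ne_zero hm.ne_zero (pow_ne_zero _ hιy) hιw.symm
  obtain ⟨I, -, hI⟩ := exists_ideal_pow hℓ.ne_zero hw0 (fun P => by
    obtain ⟨t, ht⟩ := hval P
    refine ⟨t * P.valuation (AdjoinRoot (f.map (algebraMap A K)))
      (algebraMap (AdjoinRoot f) (AdjoinRoot (f.map (algebraMap A K))) y), ?_⟩
    rw [← HeightOneSpectrum.valuation_of_algebraMap (K := AdjoinRoot (f.map (algebraMap A K)))]
    change P.valuation _ (algebraMap (AdjoinRoot f) (AdjoinRoot (f.map (algebraMap A K))) w) = _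
    rw [hιw, map_mul, map_pow, ht, mul_pow])
  -- the norm
  have hN : algebraMap A K (Algebra.norm A w) = (r * Algebra.norm K
      (algebraMap (AdjoinRoot f) (AdjoinRoot (f.map (algebraMap A K))) y)) ^ ℓ := by
    rw [← norm_lamMap' (algebraMap A K) (rfl : f.map (algebraMap A K) = _) hf w, mul_pow, ← hr,
      ← map_pow, ← map_mul, ← hιw]
    rfl
  obtain ⟨ρ, hρ⟩ := IsIntegrallyClosed.exists_algebraMap_eq_of_isIntegral_pow (R := A) (K := K)
    hℓ.pos (x := r * Algebra.norm K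
      (algebraMap (AdjoinRoot f) (AdjoinRoot (f.map (algebraMap A K))) y)) (by
      rw [← hN]
      exact isIntegral_algebraMap)
  have hρ2 : Algebra.norm A w = ρ ^ ℓ := by
    apply IsFractionRing.injective A K
    rw [hN, map_pow, hρ]
  obtain ⟨q, rfl⟩ := AdjoinRoot.mk_surjective w
  obtain ⟨μ, hμ, z, hz⟩ := H q hw0 ⟨I, hI⟩ ⟨ρ, hρ2⟩
  refine ⟨μ, hμ, z / algebraMap (AdjoinRoot f) (AdjoinRoot (f.map (algebraMap A K))) y, ?_⟩
  have h1 : algebraMap (AdjoinRoot f) (AdjoinRoot (f.map (algebraMap A K)))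
      (AdjoinRoot.mk f q) = AdjoinRoot.mk (f.map (algebraMap A K)) (q.map (algebraMap A K)) := by
    change lamMap (algebraMap A K) rfl (AdjoinRoot.mk f q) = _
    rw [lamMap_mk]
  rw [h1, hz] at hιw
  rw [div_pow, ← mul_div_assoc, hιw, mul_div_assoc, div_self (pow_ne_zero _ hιy), mul_one]

/-- **The criterion.** -/
theorem criterion' {ζ : k} (hζ : IsPrimitiveRoot ζ ℓ) (f : A[X]) (hf : f.Monic)
    (hsep : (f.map (algebraMap A K)).Separable) (hcop : ¬ ℓ ∣ f.natDegree)
    [IsDedekindDomain (AdjoinRoot f)] :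
    (Gen ℓ K f (ptMon ℓ (f.map (algebraMap A K))) →
      ∀ ξ ∈ Sha k ℓ (f.map (algebraMap A K)), ℓ • ξ = 0 → ξ = 0) ∧
    (Gen ℓ K f {1} →
      (∀ ξ ∈ Sha k ℓ (f.map (algebraMap A K)), ℓ • ξ = 0 → ξ = 0) ∧
      (∀ t : Jac ℓ (f.map (algebraMap A K)) K,
        (∀ σ, act ℓ (f.map (algebraMap A K)) K σ t = t) →
        ∃ s : Jac ℓ (f.map (algebraMap A K)) K,
          (∀ σ, act ℓ (f.map (algebraMap A K)) K σ s = s) ∧ ℓ • s = t)) := by
  have hζA : IsPrimitiveRoot (algebraMap A K (algebraMap k A ζ)) ℓ := by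
    rw [← IsScalarTower.algebraMap_apply]
    exact hζ.map_of_injective (algebraMap k K).injective
  have hgood : Good ℓ (f.map (algebraMap A K)) :=
    ⟨hf.map _, hsep, by rwa [hf.natDegree_map]⟩
  have hirr : Irreducible (f.map (algebraMap A K)) := irreducible_of_isDomain hf
  constructor
  · intro H
    exact (coreG k hζA (f.map (algebraMap A K)) hirr fun m hm hr hloc =>
      sel_mem k hζA f hf hcop _ H m hm hr hloc).sha
  · intro H
    refine sha_ell_torsion k hζA (f.map (algebraMap A K)) hirr fun m hm hr hloc => ?_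
    obtain ⟨μ, hμ, l, h⟩ := sel_mem k hζA f hf hcop _ H m hm hr hloc
    rw [Set.mem_singleton_iff] at hμ
    exact ⟨l, by rw [h, hμ, one_mul]⟩

end Pool.Agent.H24D
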