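import Mathlib
import Pool.Agent.H24D.Main

/-!
# The condition on the class group and the units
-/

set_option autoImplicit false

open Polynomial IsDedekindDomain

noncomputable section

open scoped Classical WithZero

namespace Pool.Agent.H24D

open Pool.Agent.MP1bdb59C

/-- If an ideal whose `ℓ`-th power is principal is principal and each unit is the product of a unit
of `A` and an `ℓ`-th power then the elements in question are `ℓ`-th powers. -/
theorem gen_of_class {A K : Type*} [CommRing A] [IsDedekindDomain A] [Field K] [Algebra A K]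
    [IsFractionRing A K] {ℓ : ℕ} [hp : Fact ℓ.Prime] (f : A[X]) (hf : f.Monic)
    (hcop : ¬ ℓ ∣ f.natDegree) [IsDedekindDomain (AdjoinRoot f)]
    (H1 : ∀ I : Ideal (AdjoinRoot f), (I ^ ℓ).IsPrincipal → I.IsPrincipal)
    (H2 : ∀ u : AdjoinRoot f, IsUnit u → ∃ (c : A) (v : AdjoinRoot f), IsUnit c ∧ IsUnit v ∧
      u = AdjoinRoot.of f c * v ^ ℓ) : Gen ℓ K f {1} := by
  intro q hq ⟨I, hI⟩ ⟨r, hr⟩
  have hℓ := hp.out
  have hirr : Irreducible (f.map (algebraMap A K)) := irreducible_of_isDomain hf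
  have := Fact.mk hirr
  obtain ⟨y, hy⟩ := (H1 I ⟨AdjoinRoot.mk f q, by rw [← hI]⟩).principal
  have h1 : Ideal.span {AdjoinRoot.mk f q} = Ideal.span {y ^ ℓ} := by
    rw [hI, hy]
    exact Ideal.span_singleton_pow y ℓ
  rw [Ideal.span_singleton_eq_span_singleton] at h1
  obtain ⟨u, hu⟩ := h1.symm
  obtain ⟨c, v, hc, hv, huv⟩ := H2 u u.isUnit
  have h2 : AdjoinRoot.mk f q = AdjoinRoot.of f c * (v * y) ^ ℓ := by
    rw [← hu, huv]
    ring
  have hc0 : algebraMap A K c ≠ 0 := (hc.map (algebraMap A K)).ne_zero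
  have hvy : v * y ≠ 0 := by
    intro h0
    rw [h0, zero_pow hℓ.ne_zero, mul_zero] at h2
    exact hq h2
  obtain ⟨Y, hY⟩ : ∃ Y, Y = lamMap (algebraMap A K) (rfl : f.map (algebraMap A K) = _) (v * y) :=
    ⟨_, rfl⟩
  have hY0 : Y ≠ 0 := by
    rw [hY]
    intro h0
    exact hvy (lamMap_inj rfl hf (by rw [h0, map_zero]))
  have h3 : AdjoinRoot.mk (f.map (algebraMap A K)) (q.map (algebraMap A K)) =
      AdjoinRoot.of _ (algebraMap A K c) * Y ^ ℓ := by
    rw [hY, ← map_pow, ← lamMap_of' (algebraMap A K) (rfl : f.map (algebraMap A K) = _),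
      ← map_mul, ← h2, lamMap_mk]
  have hN : algebraMap A K c ^ f.natDegree * (Algebra.norm K Y) ^ ℓ = (algebraMap A K r) ^ ℓ := by
    rw [← map_pow (algebraMap A K) r, ← hr,
      ← norm_lamMap' (algebraMap A K) (rfl : f.map (algebraMap A K) = _) hf, lamMap_mk, h3,
      map_mul, map_pow, norm_of (hf.map _), hf.natDegree_map]
  have hNy : Algebra.norm K Y ≠ 0 := by
    have := (AdjoinRoot.powerBasis' (hf.map (algebraMap A K))).finite
    rw [Ne, Algebra.norm_eq_zero_iff]
    exact hY0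
  obtain ⟨b, hb⟩ := exists_pow_of_coprime hc0 ((Nat.Prime.coprime_iff_not_dvd hℓ).mpr hcop)
    (b := algebraMap A K r / Algebra.norm K Y) (by
      rw [div_pow, eq_div_iff (pow_ne_zero _ hNy), hN])
  exact ⟨1, rfl, AdjoinRoot.of _ b * Y, by rw [h3, hb, map_pow, mul_pow, one_mul]⟩

end Pool.Agent.H24D
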